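import Pool.Agent.H56.BD.StmtsT

set_option autoImplicit false

namespace Pool.BD

open Relation

namespace AC2

variable {V : Type} {G : SimpleGraph V} {rk : V → ℕ} {q0 : V} {L : Ct V} {ρ : V → V}
  {t : V → ℤ} {R : V → Ct V}

theorem dw_rank (ns : NS G rk q0 L ρ t) {x z : V} (h : Dw G rk q0 ρ x z) : rk x < rk z := by
  obtain ⟨h1, h2, h3⟩ := h
  have := (ns.rU z h1 h2).2.1
  rwa [h3] at this

theorem rtg_rank (ns : NS G rk q0 L ρ t) {x z : V} (h : ReflTransGen (Dw G rk q0 ρ) x z) :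
    rk x ≤ rk z := by
  induction h with
  | refl => exact le_rfl
  | tail _ h2 ih => exact ih.trans (dw_rank ns h2).le

theorem chain {x x' v : V} (h : ReflTransGen (Dw G rk q0 ρ) x v)
    (h' : ReflTransGen (Dw G rk q0 ρ) x' v) :
    ReflTransGen (Dw G rk q0 ρ) x x' ∨ ReflTransGen (Dw G rk q0 ρ) x' x := by
  induction h with
  | refl => exact Or.inr h'
  | @tail u v h1 h2 ih =>
    rcases ReflTransGen.cases_tail h' with h3 | ⟨u', h3, h4⟩
    · subst h3
      exact Or.inl (ReflTransGen.tail h1 h2)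
    · have : u' = u := h4.2.2.symm.trans h2.2.2
      subst this
      exact ih h3

theorem root (ns : NS G rk q0 L ρ t) : ∀ y, Re G rk q0 y → ReflTransGen (Dw G rk q0 ρ) q0 y := by
  have key : ∀ n, ∀ y, Re G rk q0 y → rk y = n → ReflTransGen (Dw G rk q0 ρ) q0 y := by
    intro n
    induction n using Nat.strong_induction_on with
    | _ n ih =>
      intro y hy hn
      by_cases hq : y = q0
      · subst hq; exact ReflTransGen.refl
      · have h1 := ns.rU y hy hq
        exact ReflTransGen.tail (ih (rk (ρ y)) (by omega) (ρ y) h1.1 rfl) ⟨hy, hq, rfl⟩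
  exact fun y hy => key _ y hy rfl

theorem nd_of (c y : V) (h : ReflTransGen (Dw G rk q0 ρ) c y) (hy : Nd G rk q0 ρ y) :
    Nd G rk q0 ρ c := by
  rcases ReflTransGen.cases_head h with h1 | ⟨b, h1, h2⟩
  · rw [h1]; exact hy
  · exact Or.inr ⟨b, h1.1, h1.2.1, h1.2.2⟩

theorem nd_mem (ns : NS G rk q0 L ρ t) {y : V} (h : Nd G rk q0 ρ y) : Re G rk q0 y := by
  rcases h with h | ⟨b, h1, h2, h3⟩
  · subst h; exact ReflTransGen.refl
  · have := (ns.rU b h1 h2).1
    rwa [h3] at this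

theorem reach_of_mem (hN : Nodes G rk q0 L ρ t R) {c b : V} (hc : Nd G rk q0 ρ c)
    (hb : b ∈ SU G rk q0 L t c) : Re G rk c b :=
  Anc.reach (hN.nh c hc).ok.isL (hN.nh c hc).ok.parL
    ((hN.nh c hc).ok.isL.root_anc (hN.nh c hc).ok.parL b hb)

theorem reach_of_rtg (hN : Nodes G rk q0 L ρ t R) {c y : V} (hc : Nd G rk q0 ρ c)
    (h : ReflTransGen (Dw G rk q0 ρ) c y) : Re G rk c y := by
  rcases reflTransGen_iff_eq_or_transGen.1 h with h1 | h1
  · subst h1; exact ReflTransGen.refl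
  · exact reach_of_mem hN hc ((hN.ns.anc c y hc).2 h1).1

/-- a hub without its root is closed under reachability -/
theorem up_closed (hN : Nodes G rk q0 L ρ t R) {c u v : V} (hc : Nd G rk q0 ρ c)
    (hu : u ∈ SU G rk q0 L t c) (huc : u ≠ c) (h : Re G rk u v) :
    v ∈ SU G rk q0 L t c ∧ v ≠ c := by
  induction h with
  | refl => exact ⟨hu, huc⟩
  | @tail w v h1 h2 ih =>
    refine ⟨(hN.nh c hc).up w ih.1 ih.2 v h2, ?_⟩
    rintro rfl
    have h3 := Re.rank (reach_of_mem hN hc ih.1)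
    have h4 := h2.2
    omega

theorem decomp (ns : NS G rk q0 L ρ t) {y : V} (hy : Re G rk q0 y) :
    ∀ y', Re G rk q0 y' → ReflTransGen (Dw G rk q0 ρ) y y' ∨ ReflTransGen (Dw G rk q0 ρ) y' y ∨
      ∃ c c' z, c ≠ c' ∧ Dw G rk q0 ρ z c ∧ Dw G rk q0 ρ z c' ∧
        ReflTransGen (Dw G rk q0 ρ) c y ∧ ReflTransGen (Dw G rk q0 ρ) c' y' := by
  have key : ∀ n, ∀ y', Re G rk q0 y' → rk y' = n →
      ReflTransGen (Dw G rk q0 ρ) y y' ∨ ReflTransGen (Dw G rk q0 ρ) y' y ∨
      ∃ c c' z, c ≠ c' ∧ Dw G rk q0 ρ z c ∧ Dw G rk q0 ρ z c' ∧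
        ReflTransGen (Dw G rk q0 ρ) c y ∧ ReflTransGen (Dw G rk q0 ρ) c' y' := by
    intro n
    induction n using Nat.strong_induction_on with
    | _ n ih =>
      intro y' hy' hn
      by_cases hq : y' = q0
      · subst hq; exact Or.inr (Or.inl (root ns y hy))
      · have h1 := ns.rU y' hy' hq
        have hd : Dw G rk q0 ρ (ρ y') y' := ⟨hy', hq, rfl⟩
        rcases ih (rk (ρ y')) (by omega) (ρ y') h1.1 rfl with h2 | h2 | ⟨c, c', z, h2, h3, h4, h5, h6⟩
        · exact Or.inl (ReflTransGen.tail h2 hd)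
        · rcases ReflTransGen.cases_head h2 with h3 | ⟨c, h3, h4⟩
          · rw [← h3]
            exact Or.inl (ReflTransGen.single hd)
          · by_cases hc : c = y'
            · subst hc; exact Or.inr (Or.inl h4)
            · exact Or.inr (Or.inr ⟨c, y', ρ y', hc, h3, hd, h4, ReflTransGen.refl⟩)
        · exact Or.inr (Or.inr ⟨c, c', z, h2, h3, h4, h5, ReflTransGen.tail h6 hd⟩)
  exact fun y' hy' => key _ y' hy' rfl

/-- two different children of `z` have no common descendant -/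
theorem disj (ns : NS G rk q0 L ρ t) {c c' z v : V} (hne : c ≠ c') (h : Dw G rk q0 ρ z c)
    (h' : Dw G rk q0 ρ z c') (hv : ReflTransGen (Dw G rk q0 ρ) c v)
    (hv' : ReflTransGen (Dw G rk q0 ρ) c' v) : False := by
  have key : ∀ c c', c ≠ c' → Dw G rk q0 ρ z c → Dw G rk q0 ρ z c' →
      ReflTransGen (Dw G rk q0 ρ) c c' → False := by
    intro c c' hne h h' h1
    rcases ReflTransGen.cases_tail h1 with h2 | ⟨u, h2, h3⟩
    · exact hne h2.symm
    · have : u = z := h3.2.2.symm.trans h'.2.2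
      subst this
      have h4 := rtg_rank ns h2
      have h5 := dw_rank ns h
      omega
  rcases chain hv hv' with h1 | h1
  · exact key c c' hne h h' h1
  · exact key c' c hne.symm h' h h1

theorem act_child (hN : Nodes G rk q0 L ρ t R) {a c c' z y y' : V} (hne : c ≠ c')
    (h : Dw G rk q0 ρ z c) (h' : Dw G rk q0 ρ z c') (hy : ReflTransGen (Dw G rk q0 ρ) c y)
    (hy' : ReflTransGen (Dw G rk q0 ρ) c' y') (hA : Act G rk q0 L ρ t a y)
    (hA' : Act G rk q0 L ρ t a y') : Act G rk q0 L ρ t a c := by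
  obtain ⟨n1, n2, n3, v, n4, n5, n6⟩ := hA
  obtain ⟨m1, m2, m3, v', m4, m5, m6⟩ := hA'
  have hc := nd_of c y hy n1
  refine ⟨hc, ?_, ?_, v, ?_⟩
  · intro ha
    by_cases hac : a = c
    · subst hac
      exact n3 (reach_of_rtg hN hc hy)
    · have h1 := up_closed hN hc ha hac m6
      have h2 := (hN.ns.anc c v' hc).1 h1
      have h3 := (hN.ns.anc y' v' m1).1 ⟨m4, m5⟩
      exact disj hN.ns hne h h' h2.to_reflTransGen (hy'.trans h3.to_reflTransGen)
  · intro hac
    exact n3 (hac.trans (reach_of_rtg hN hc hy))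
  · have h3 := (hN.ns.anc y v n1).1 ⟨n4, n5⟩
    have h4 := (hN.ns.anc c v hc).2 (TransGen.trans_right hy h3)
    exact ⟨h4.1, h4.2, n6⟩

end AC2

open AC2 in
theorem ac2 (h1 : AC1) : AC2 := by
  intro V G rk q0 L ρ t R hN a y y' hy hy' hA hA'
  have hcomp : ReflTransGen (Dw G rk q0 ρ) y y' ∨ ReflTransGen (Dw G rk q0 ρ) y' y := by
    rcases decomp hN.ns (nd_mem hN.ns hA.1) y' (nd_mem hN.ns hA'.1) with
      h2 | h2 | ⟨c, c', z, h2, h3, h4, h5, h6⟩
    · exact Or.inl h2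
    · exact Or.inr h2
    · exfalso
      have hc := act_child hN h2 h3 h4 h5 h6 hA hA'
      have hc' := act_child hN h2.symm h4 h3 h6 h5 hA' hA
      have k1 := (h1 V G rk q0 L ρ t R hN a c h3.2.1 hc).1
      have k2 := (h1 V G rk q0 L ρ t R hN a c' h4.2.1 hc').1
      have key : ∀ c c', c ≠ c' → Dw G rk q0 ρ z c → Dw G rk q0 ρ z c' →
          Act G rk q0 L ρ t a c → Act G rk q0 L ρ t a c' →
          (∀ v, Re G rk a v → Re G rk q0 v → t c < L.lo v ∧ v ∈ SU G rk q0 L t (ρ c) ∧ v ≠ ρ c) →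
          L.hi c' ≤ L.hi c → False := by
        intro c c' hne h h' hc hc' k hle
        obtain ⟨m1, m2, m3, v', m4, m5, m6⟩ := hc'
        have m7 : t c' < L.lo v' ∧ L.hi v' < L.hi c' := by
          rcases m4.2 with m8 | m8
          · exact absurd m8 m5
          · exact m8
        have hvc : v' ≠ c := by
          rintro rfl
          omega
        have hv : v' ∈ SU G rk q0 L t c :=
          ⟨m4.1, Or.inr ⟨(k v' m6 m4.1).1, by omega⟩⟩
        exact disj hN.ns hne h h' ((hN.ns.anc c v' hc.1).1 ⟨hv, hvc⟩).to_reflTransGen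
          ((hN.ns.anc c' v' m1).1 ⟨m4, m5⟩).to_reflTransGen
      rcases le_total (L.hi c') (L.hi c) with hle | hle
      · exact key c c' h2 h3 h4 hc hc' k1 hle
      · exact key c' c h2.symm h4 h3 hc' hc k2 hle
  refine ⟨hcomp, fun ha => ?_⟩
  have e1 := (h1 V G rk q0 L ρ t R hN a y hy hA).2 ha
  have e2 := (h1 V G rk q0 L ρ t R hN a y' hy' hA').2 ha
  have e3 : ρ y = ρ y' := e1.symm.trans e2
  have d1 : Dw G rk q0 ρ (ρ y) y := ⟨nd_mem hN.ns hA.1, hy, rfl⟩
  have d2 : Dw G rk q0 ρ (ρ y) y' := ⟨nd_mem hN.ns hA'.1, hy', e3.symm⟩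
  by_contra hne
  rcases hcomp with h | h
  · exact disj hN.ns hne d1 d2 h ReflTransGen.refl
  · exact disj hN.ns hne d1 d2 ReflTransGen.refl h

end Pool.BD
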