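import Pool.Agent.H56.BD.StmtsT

set_option autoImplicit false

namespace Pool.BD

open Relation

namespace F2N

theorem exists_rung {V : Type} {G : SimpleGraph V} {rk : V → ℕ} {H : Set V} {q a v : V}
    (ha : a ∉ H) (hq : ¬ Re G rk a q) (h : Re G rk a v) : v ∈ H → ∃ w x, Rg G rk H q a w x := by
  induction h with
  | refl => exact fun h => absurd h ha
  | @tail u v h1 h2 ih =>
    intro hv
    by_cases hu : u ∈ H
    · exact ih hu
    · refine ⟨v, u, hv, ?_, hu, h1, h2⟩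
      rintro rfl
      exact hq (ReflTransGen.tail h1 h2)

theorem exists_max (i : NInst) (a : i.V) : ∃ m : i.V × i.V, i.src a →
    (Rg i.G i.rk i.H i.q a m.1 m.2 ∧
      ∀ w x, Rg i.G i.rk i.H i.q a w x → i.L.pos w x ≤ i.L.pos m.1 m.2) := by
  by_cases hs : i.src a
  · have := i.fin
    obtain ⟨ha, hq, v, hv, hvq, hav⟩ := hs
    obtain ⟨w, x, hr⟩ := exists_rung ha hq hav hv
    obtain ⟨m, hm1, hm2⟩ := Set.exists_max_image {m : i.V × i.V | Rg i.G i.rk i.H i.q a m.1 m.2}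
      (fun m => i.L.pos m.1 m.2) (Set.toFinite _) ⟨(w, x), hr⟩
    exact ⟨m, fun _ => ⟨hm1, fun w x h => hm2 (w, x) h⟩⟩
  · exact ⟨(a, a), fun h => absurd h hs⟩

theorem exists_lam (i : NInst) (a : i.V) : ∃ l : ℤ, i.src a →
    ((∃ v ∈ i.H, v ≠ i.q ∧ Re i.G i.rk a v ∧ i.L.lo v = l) ∧
      ∀ v ∈ i.H, v ≠ i.q → Re i.G i.rk a v → l ≤ i.L.lo v) := by
  by_cases hs : i.src a
  · have := i.fin
    obtain ⟨ha, hq, v, hv, hvq, hav⟩ := hs
    obtain ⟨m, hm1, hm2⟩ := Set.exists_min_image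
      {v : i.V | v ∈ i.H ∧ v ≠ i.q ∧ Re i.G i.rk a v}
      (fun v => i.L.lo v) (Set.toFinite _) ⟨v, hv, hvq, hav⟩
    exact ⟨i.L.lo m, fun _ => ⟨⟨m, hm1.1, hm1.2.1, hm1.2.2, rfl⟩,
      fun v h1 h2 h3 => hm2 v ⟨h1, h2, h3⟩⟩⟩
  · exact ⟨0, fun h => absurd h hs⟩

end F2N

open F2N in
theorem f2n (h1 : F2c) (h2 : F2s) (h3 : MPL) (h4 : MMI) : F2N := by
  choose m hm using exists_max
  choose lam hlam using exists_lam
  have e1 : Bt (ι := NInst) (fun i => i.V) (fun i => i.V) (fun i a b => i.src a ∧ i.sp b)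
      (fun i a b => ¬ (i.L.pos (m i a).1 (m i a).2 ≤ i.L.hi b)) :=
    (Bt.thr_le (ι := NInst) (A := fun i => i.V) (B := fun i => i.V) (α := fun _ => ℤ)
      (fun i => i.fin) (fun i => i.fin)
      (fun i a => i.L.pos (m i a).1 (m i a).2) (fun i b => i.L.hi b)).not
  have e2 : Bt (ι := NInst) (fun i => i.V) (fun i => i.V) (fun i a b => i.src a ∧ i.sp b)
      (fun i a b => i.R.pos (m i a).1 (m i a).2 < i.R.hi b) :=
    Bt.thr (ι := NInst) (A := fun i => i.V) (B := fun i => i.V) (α := fun _ => ℤ)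
      (fun i => i.fin) (fun i => i.fin)
      (fun i a => i.R.pos (m i a).1 (m i a).2) (fun i b => i.R.hi b)
  have e3 : Bt (ι := NInst) (fun i => i.V) (fun i => i.V) (fun i a b => i.src a ∧ i.sp b)
      (fun i a b => lam i a ≤ i.L.lo b) :=
    Bt.thr_le (ι := NInst) (A := fun i => i.V) (B := fun i => i.V) (α := fun _ => ℤ)
      (fun i => i.fin) (fun i => i.fin)
      (fun i a => lam i a) (fun i b => i.L.lo b)
  refine ((Bt.or h3 h4).or (e1.and (e2.and e3))).mono (fun i a b hd => ⟨hd, ?_⟩)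
  obtain ⟨hs, hb⟩ := hd
  obtain ⟨hm1, hm2⟩ := hm i a hs
  obtain ⟨⟨v0, hv0, hv0q, hv0a, hv0l⟩, hl2⟩ := hlam i a hs
  obtain ⟨ha, hq, _⟩ := hs
  have := i.fin
  have hD : ∀ (c : Ct i.V), IsCt i.G i.H i.q i.Q c → ∀ w x, Rg i.G i.rk i.H i.q a w x →
      Dn i.G i.H i.q i.Q c w x := by
    intro c hc w x hr
    obtain ⟨r1, r2, r3, r4, r5⟩ := hr
    refine ⟨r1, r5.1.symm, fun h => absurd h r2, fun _ h => ?_⟩
    rw [h] at r3
    exact r3 (hc.par w r1 r2).1
  constructor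
  · intro hab
    rcases h1 i.V i.G i.rk i.H i.q i.Q i.L i.R b i.nh hb a ha hq hab with h | h | ⟨⟨w, x, hr, hp⟩, h⟩
    · exact Or.inl (Or.inl h)
    · exact Or.inl (Or.inr h)
    · refine Or.inr ⟨?_, h _ _ hm1, hl2 b hb.1 hb.2.1 hab⟩
      have := hm2 w x hr
      intro hle
      omega
  · rintro ((⟨w, x, hr, hp1, hp2⟩ | ⟨w, x, hr, hp1, hp2⟩) | ⟨hp1, hp2, hp3⟩)
    · have hd := i.nh.ok.isL.dn w x (hD _ i.nh.ok.isL w x hr)
      have hlb := i.nh.ok.isL.lh b hb.1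
      have hwb : Re i.G i.rk w b := by
        rcases i.nh.ok.isL.tri i.nh.ok.parL w hr.1 b hb.1 with h | h | h | h
        · exact h.reach i.nh.ok.isL i.nh.ok.parL
        · by_cases he : b = w
          · subst he; exact ReflTransGen.refl
          · have := i.nh.ok.isL.anc_block h he
            omega
        · omega
        · omega
      exact (ReflTransGen.tail hr.2.2.2.1 hr.2.2.2.2).trans hwb
    · have hd := i.nh.ok.isR.dn w x (hD _ i.nh.ok.isR w x hr)
      have hlb := i.nh.ok.isR.lh b hb.1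
      have hwb : Re i.G i.rk w b := by
        rcases i.nh.ok.isR.tri i.nh.ok.parR w hr.1 b hb.1 with h | h | h | h
        · exact h.reach i.nh.ok.isR i.nh.ok.parR
        · by_cases he : b = w
          · subst he; exact ReflTransGen.refl
          · have := i.nh.ok.isR.anc_block h he
            omega
        · omega
        · omega
      exact (ReflTransGen.tail hr.2.2.2.1 hr.2.2.2.2).trans hwb
    · refine h2 i.V i.G i.rk i.H i.q i.Q i.L i.R b i.nh hb a ha hq _ _ hm1 (by omega) hp2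
        ⟨v0, hv0, hv0q, hv0a, ?_⟩
      rw [hv0l]
      exact hp3

end Pool.BD
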