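import Pool.Agent.H57.BD.Stmts

set_option autoImplicit false

namespace Pool.BD

theorem pl (h1 : STWOStmt) (_h2 : UPFStmt) (h3 : TYPBStmt) : PLStmt := by
  intro F lev r N hb vL vR hLF
  classical
  -- notation
  let E : Finset ℕ := F.biUnion id
  let v : {S // S ∈ F} → ℕ := fun S => vR (dep lev S.1) (upP lev S.1)
  let d : {S // S ∈ F} → ℕ := fun S => dep lev S.1 + 1
  let hi : {S // S ∈ F} → ℕ := fun S => if (upP lev S.1).Nonempty then v S else 0
  let lo : {S // S ∈ F} → ℕ := fun S =>
    if (upP lev S.1).Nonempty then leftEnd E lev (d S) (v S) else 1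
  let T : {S // S ∈ F} → Finset ℕ := fun S =>
    (upP lev S.1).filter (fun c => c ≤ vR (dep lev S.1) (upP lev S.1))
  let kk : {S // S ∈ F} → ℕ ×ₗ ℕ := fun S => toLex (v S, E.card - (T S).card)
  have hdep : ∀ S : {S // S ∈ F}, ∀ c ∈ S.1, dep lev S.1 ≤ lev c := by
    intro S c hc
    exact Nat.sInf_le ⟨c, hc, rfl⟩
  have hmemE : ∀ S : {S // S ∈ F}, ∀ c ∈ S.1, c ∈ E := by
    intro S c hc
    exact Finset.mem_biUnion.2 ⟨S.1, S.2, hc⟩
  have hup : ∀ (S : Finset ℕ) (c : ℕ), c ∈ upP lev S ↔ c ∈ S ∧ lev c = dep lev S + 1 := by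
    intro S c
    simp [upP]
  have hupF : ∀ S : {S // S ∈ F}, (upP lev S.1).Nonempty →
      upP lev S.1 ∈ upF F lev (dep lev S.1) := by
    intro S hne
    simp only [upF, Finset.mem_filter, Finset.mem_image]
    exact ⟨⟨S.1, ⟨S.2, rfl⟩, rfl⟩, hne⟩
  have hv : ∀ S : {S // S ∈ F}, (upP lev S.1).Nonempty → v S ∈ upP lev S.1 := by
    intro S hne
    exact (hLF (dep lev S.1)).memR _ (hupF S hne)
  have hle : ∀ (D m e : ℕ), e ∈ E → lev e < D → e < m → e + 1 ≤ leftEnd E lev D m := by
    intro D m e he h5 h6
    unfold leftEnd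
    exact Finset.le_sup (f := fun e => e + 1) (Finset.mem_filter.2 ⟨he, h5, h6⟩)
  have hle2 : ∀ (D m x : ℕ), (∀ e ∈ E, lev e < D → e < m → e + 1 ≤ x) →
      leftEnd E lev D m ≤ x := by
    intro D m x h
    unfold leftEnd
    refine Finset.sup_le ?_
    intro e he
    obtain ⟨h5, h6, h7⟩ := Finset.mem_filter.1 he
    exact h e h5 h6 h7
  have hT : ∀ S : {S // S ∈ F}, ∀ c ∈ T S, c ∈ upP lev S.1 ∧ c ≤ v S := by
    intro S c hc
    exact Finset.mem_filter.1 hc
  have hpart : Part N E lev T lo hi d := by
    constructor
    · intro S c hc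
      obtain ⟨h5, h6⟩ := hT S c hc
      have hne : (upP lev S.1).Nonempty := ⟨c, h5⟩
      obtain ⟨h7, h8⟩ := (hup _ _).1 h5
      obtain ⟨h9, h10⟩ := (hup _ _).1 (hv S hne)
      refine ⟨hmemE S c h7, h8, ?_, ?_⟩
      · show (if (upP lev S.1).Nonempty then leftEnd E lev (d S) (v S) else 1) ≤ c
        rw [if_pos hne]
        refine hle2 _ _ _ ?_
        intro e he h11 h12
        obtain ⟨S₀, hS₀, he₀⟩ := Finset.mem_biUnion.1 he
        by_contra hcon
        have h13 : c ≠ e := by
          rintro rfl
          have : lev c < dep lev S.1 + 1 := h11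
          omega
        have h14 : lev e ≤ dep lev S.1 := Nat.lt_succ_iff.1 h11
        exact h1 F lev hb.star hb.lev (dep lev S.1) S.1 S.2 (hdep S) c h7 (v S) h9 h8 h10
          S₀ hS₀ e he₀ h14 ⟨by omega, h12⟩
      · show c ≤ (if (upP lev S.1).Nonempty then v S else 0)
        rw [if_pos hne]
        exact h6
    · intro S e he h5 h6 h7
      by_cases hne : (upP lev S.1).Nonempty
      · have h8 : lo S = leftEnd E lev (d S) (v S) := if_pos hne
        have h9 : hi S = v S := if_pos hne
        have h10 := ((hup _ _).1 (hv S hne)).2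
        rw [h9] at h7
        rw [h8] at h6
        have h11 : e ≠ v S := by
          intro h
          rw [h] at h5
          have : lev (v S) < dep lev S.1 + 1 := h5
          omega
        have h12 := hle (d S) (v S) e he h5 (lt_of_le_of_ne h7 h11)
        omega
      · have h8 : lo S = 1 := if_neg hne
        have h9 : hi S = 0 := if_neg hne
        omega
    · intro S b b' hbb hb' hnot
      by_cases hne : (upP lev S.1).Nonempty
      · have h8 : lo S = leftEnd E lev (d S) (v S) := if_pos hne
        have h9 : hi S = v S := if_pos hne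
        obtain ⟨h10, h11⟩ := (hup _ _).1 (hv S hne)
        by_cases hin : lo S ≤ b ∧ b ≤ hi S
        · refine ⟨v S, hmemE S _ h10, le_of_eq h11, ?_, ?_⟩
          · rw [← h9]; exact hin.2
          · by_contra hcon
            apply hnot
            constructor
            · intro _
              exact ⟨hin.1.trans hbb, by rw [h9]; omega⟩
            · intro _
              exact hin
        · have hin' : lo S ≤ b' ∧ b' ≤ hi S := by
            by_contra hcon
            apply hnot
            exact ⟨fun h => absurd h hin, fun h => absurd h hcon⟩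
          have h12 : b < lo S := by
            by_contra hcon
            exact hin ⟨by omega, hbb.trans hin'.2⟩
          by_contra hcon
          push Not at hcon
          have h13 : leftEnd E lev (d S) (v S) ≤ b := by
            refine hle2 _ _ _ ?_
            intro e he h14 h15
            by_contra h16
            have h17 := hle (d S) (v S) e he h14 h15
            have h18 := hcon e he h14.le (by omega)
            omega
          omega
      · have h8 : lo S = 1 := if_neg hne
        have h9 : hi S = 0 := if_neg hne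
        exfalso
        apply hnot
        constructor <;> intro h <;> omega
  refine ⟨lo, hi, fun a c hc => ⟨(hpart.mem a c hc).2.2.1, (hpart.mem a c hc).2.2.2⟩, ?_⟩
  refine h3 {S // S ∈ F} N E lev r T lo hi d kk hb.le hb.nc hpart ?_
  intro a a' hd c hc hc' h5 h6
  obtain ⟨h7, h8⟩ := hT a c hc
  have hne : (upP lev a.1).Nonempty := ⟨c, h7⟩
  have hne' : (upP lev a'.1).Nonempty := by
    by_contra hne'
    have h8 : lo a' = 1 := if_neg hne'
    have h9 : hi a' = 0 := if_neg hne'
    omega
  have h9 : hi a' = v a' := if_pos hne'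
  rw [h9] at h5
  have h10 : c ∉ upP lev a'.1 := by
    intro h
    exact hc' (Finset.mem_filter.2 ⟨h, h5⟩)
  have hdd : dep lev a.1 = dep lev a'.1 := by
    have : dep lev a.1 + 1 = dep lev a'.1 + 1 := hd
    omega
  have hF' : upP lev a'.1 ∈ upF F lev (dep lev a.1) := by
    rw [hdd]; exact hupF a' hne'
  have hva' : v a' = vR (dep lev a.1) (upP lev a'.1) := by
    show vR (dep lev a'.1) (upP lev a'.1) = _
    rw [hdd]
  have h11 := (hLF (dep lev a.1)).lf2 _ (hupF a hne) _ hF' c h7 h10 h8 (by rw [← hva']; exact h5)
  have hcard : ∀ S : {S // S ∈ F}, (T S).card ≤ E.card := by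
    intro S
    refine Finset.card_le_card ?_
    intro c hc
    exact hmemE S c ((hup _ _).1 (hT S c hc).1).1
  have hTa' : T a' = (upP lev a'.1).filter (fun u => u ≤ vR (dep lev a.1) (upP lev a'.1)) := by
    show (upP lev a'.1).filter (fun c => c ≤ vR (dep lev a'.1) (upP lev a'.1)) = _
    rw [hdd]
  show toLex (v a, E.card - (T a).card) < toLex (v a', E.card - (T a').card)
  rw [Prod.Lex.toLex_lt_toLex]
  rcases h11 with h11 | ⟨h11, h12⟩
  · left
    show v a < v a'
    rw [hva']
    exact h11
  · right
    constructor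
    · show v a = v a'
      rw [hva']
      exact h11.symm
    · show E.card - (T a).card < E.card - (T a').card
      have h13 : (T a').card < (T a).card := by
        rw [hTa']
        exact h12
      have := hcard a
      omega

end Pool.BD
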