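import Pool.Agent.H57.BD.Stmts

set_option autoImplicit false

namespace Pool.BD

theorem typc (h1 : SEGStmt) (h2 : MLStmt) (h3 : COLStmt) (h4 : SWStmt) : TYPCStmt := by
  intro I _ N E lev r T lo hi d P s B hcr hnc hpart hP1 hP2 hB hs hT hcross
  obtain ⟨colS, hcolS⟩ := h1 E lev r hcr hnc
  -- visibility colours, level by level
  have hV : ∀ n : ℕ, ∃ col : {c // c ∈ E ∧ lev c = n} → Fin 108,
      ∀ i j : {c // c ∈ E ∧ lev c = n}, i.1 * B n < s j.1 → s j.1 ≤ r i.1 * B n →
        r i.1 * B n < j.1 * B n → col i ≠ col j := by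
    intro n
    have hfin : Finite {c // c ∈ E ∧ lev c = n} := by
      have : Set.Finite {c | c ∈ E ∧ lev c = n} :=
        E.finite_toSet.subset (fun c hc => hc.1)
      exact this.to_subtype
    refine h3 {c // c ∈ E ∧ lev c = n} (fun c => s c.1) (fun c => c.1 * B n)
      (fun c => r c.1 * B n) ?_ ?_ ?_ ?_ ?_
    · intro c c' h
      have : c.1 * B n = c'.1 * B n := h
      exact Subtype.ext (Nat.eq_of_mul_eq_mul_right (hB n) this)
    · rintro ⟨c, hc, hl⟩
      have := hs c hc
      rw [hl] at this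
      exact this
    · rintro ⟨c, hc, hl⟩
      exact Nat.mul_le_mul_right _ (hcr c hc)
    · rintro ⟨c, hc, hl⟩ ⟨c', hc', hl'⟩ h5 h6 h7
      simp only at h5 h6 h7
      have h8 : c < c' := Nat.lt_of_mul_lt_mul_right h5
      exact hcross c hc c' hc' (hl.trans hl'.symm) h8 h6 (by rw [hl]; exact h7)
    · rintro ⟨c, hc, hl⟩ ⟨c', hc', hl'⟩ h5 h6
      simp only at h5 h6 ⊢
      have h8 : c < c' := Nat.lt_of_mul_lt_mul_right h5
      have h9 : c' ≤ r c := Nat.le_of_mul_le_mul_right h6 (hB n)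
      exact Nat.mul_le_mul_right _ (hnc c hc c' hc' h8 h9)
  choose colV hcolV using hV
  classical
  let col : ℕ → Fin (108 * 108) := fun c =>
    finProdFinEquiv (colS c, if h : c ∈ E then colV (lev c) ⟨c, h, rfl⟩ else 0)
  -- apply ML class by class
  have hML : ∀ i : Fin (108 * 108), ∃ (α : I → ℕ) (β : ℕ → ℕ), ∀ a, ∀ b < N, lo a ≤ b → b ≤ hi a →
      ((∃ c ∈ T a, col c = i ∧ c ≤ b ∧ b ≤ r c) ↔ α a < β b) := by
    intro i
    have hpair : ∀ c c', col c = i → col c' = i → colS c = colS c' ∧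
        (if h : c ∈ E then colV (lev c) ⟨c, h, rfl⟩ else 0) =
        (if h : c' ∈ E then colV (lev c') ⟨c', h, rfl⟩ else 0) := by
      intro c c' hc hc'
      have h := hc.trans hc'.symm
      have h' := finProdFinEquiv.injective h
      exact Prod.mk.inj h'
    refine h2 I N E lev r T lo hi d (fun c => col c = i) hnc hpart ?_ ?_
    · intro c hc c' hc' hQ hQ' h5 h6 h7
      exact hcolS (colS c) c hc c' hc' rfl ((hpair c c' hQ hQ').1.symm) h5 h6 h7
    · -- the switched order
      let ι : ℕ → Type := fun n => {c // c ∈ E ∧ lev c = n}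
      let M : ℕ → ℕ → ℕ → Prop := fun n p q => ∃ c : {c // c ∈ E ∧ lev c = n}, col c.1 = i ∧
        s c.1 ≤ p ∧ p < c.1 * B n ∧ c.1 * B n ≤ q ∧ q ≤ r c.1 * B n
      let lt' : ℕ → ℕ → ℕ → Prop := fun n p q => (p < q ∧ ¬ M n p q) ∨ (q < p ∧ M n q p)
      have htrans : ∀ n p q w, lt' n p q → lt' n q w → lt' n p w := by
        intro n
        refine h4 {c // c ∈ E ∧ lev c = n} (fun c => s c.1) (fun c => c.1 * B n)
          (fun c => r c.1 * B n) (fun c => col c.1 = i) ?_ ?_ ?_ ?_ ?_ ?_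
        · rintro ⟨c, hc, hl⟩
          have := hs c hc
          rw [hl] at this
          exact this
        · rintro ⟨c, hc, hl⟩
          exact Nat.mul_le_mul_right _ (hcr c hc)
        · rintro ⟨c, hc, hl⟩ ⟨c', hc', hl'⟩ h5 h6 h7
          simp only at h5 h6 h7
          have h8 : c < c' := Nat.lt_of_mul_lt_mul_right h5
          exact hcross c hc c' hc' (hl.trans hl'.symm) h8 h6 (by rw [hl]; exact h7)
        · rintro ⟨c, hc, hl⟩ ⟨c', hc', hl'⟩ h5 h6
          simp only at h5 h6 ⊢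
          have h8 : c < c' := Nat.lt_of_mul_lt_mul_right h5
          have h9 : c' ≤ r c := Nat.le_of_mul_le_mul_right h6 (hB n)
          exact Nat.mul_le_mul_right _ (hnc c hc c' hc' h8 h9)
        · rintro ⟨c, hc, hl⟩ ⟨c', hc', hl'⟩ h
          have h' : c * B n = c' * B n := h
          exact Subtype.ext (Nat.eq_of_mul_eq_mul_right (hB n) h')
        · rintro ⟨c, hc, hl⟩ ⟨c', hc', hl'⟩ hQ hQ' h5 h6 h7
          simp only at hQ hQ' h5 h6 h7
          have h8 := (hpair c c' hQ hQ').2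
          rw [dif_pos hc, dif_pos hc'] at h8
          subst hl
          have h9 : colV (lev c) ⟨c, hc, rfl⟩ = colV (lev c) ⟨c', hc', hl'⟩ := by
            rw [h8]
            have : ∀ (m : ℕ) (hm : lev c' = m), colV (lev c') ⟨c', hc', rfl⟩ =
                colV m ⟨c', hc', hm⟩ := by
              intro m hm
              subst hm
              rfl
            exact this _ hl'
          exact hcolV (lev c) ⟨c, hc, rfl⟩ ⟨c', hc', hl'⟩ h5 h6 h7 h9
      have hirr : ∀ n p, ¬ lt' n p p := by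
        rintro n p (⟨h, -⟩ | ⟨h, -⟩) <;> exact lt_irrefl _ h
      have hstep : ∀ a a', d a = d a' ∧ CRel N r T lo hi (fun c => col c = i) a a' →
          d a = d a' ∧ lt' (d a) (P a') (P a) := by
        rintro a a' ⟨hd, b, hbN, ⟨h5, h6⟩, ⟨c, hcT, hQ, h7, h8⟩, ⟨h9, h10⟩, h11⟩
        refine ⟨hd, ?_⟩
        obtain ⟨hcE, hcl, hlo, hhi⟩ := hpart.mem a c hcT
        have e1 : P a < b * B (d a) := (hP1 a (h5.trans h6) b).2 h5
        have e2 : P a' < b * B (d a) := by
          rw [hd]; exact (hP1 a' (h9.trans h10) b).2 h9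
        have e3 : M (d a) (P a) (b * B (d a)) := by
          refine ⟨⟨c, hcE, hcl⟩, hQ, ?_, ?_, ?_, ?_⟩
          · exact (hT a c hcE hcl hlo hhi).1 hcT
          · exact (hP1 a (h5.trans h6) c).2 hlo
          · exact Nat.mul_le_mul_right _ h7
          · exact Nat.mul_le_mul_right _ h8
        have e4 : ¬ M (d a) (P a') (b * B (d a)) := by
          rintro ⟨⟨c', hc'E, hc'l⟩, hQ', f1, f2, f3, f4⟩
          simp only at hQ' f1 f2 f3 f4
          have g1 : lo a' ≤ c' := (hP1 a' (h9.trans h10) c').1 (by rw [← hd]; exact f2)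
          have g2 : c' ≤ b := Nat.le_of_mul_le_mul_right f3 (hB _)
          have g3 : b ≤ r c' := Nat.le_of_mul_le_mul_right f4 (hB _)
          exact h11 ⟨c', (hT a' c' hc'E (hc'l.trans hd) g1 (g2.trans h10)).2 f1, hQ', g2, g3⟩
        exact htrans (d a) _ _ _ (Or.inl ⟨e2, e4⟩) (Or.inr ⟨e1, e3⟩)
      have hgen : ∀ x y, Relation.TransGen
          (fun a a' => d a = d a' ∧ CRel N r T lo hi (fun c => col c = i) a a') x y →
          d x = d y ∧ lt' (d x) (P y) (P x) := by
        intro x y h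
        induction h with
        | single h => exact hstep _ _ h
        | tail _ h ih =>
          obtain ⟨g1, g2⟩ := hstep _ _ h
          refine ⟨ih.1.trans g1, ?_⟩
          rw [← ih.1] at g2
          exact htrans _ _ _ _ g2 ih.2
      intro x hx
      exact hirr _ _ (hgen x x hx).2
  choose α β hαβ using hML
  exact ⟨col, α, β, fun i a b hb h5 h6 => hαβ i a b hb h5 h6⟩

end Pool.BD
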